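import Pool.Agent.H68.LP.Stm

set_option autoImplicit false

namespace Pool.Agent.H68.LP

open Quaternion Polynomial

attribute [local instance 100] LieRing.ofAssociativeRing

/-- The parity of the exponents in a polynomial in two variables. -/
def Par {K : Type} [Field K] (α β : ZMod 2) (f : K[X][X]) : Prop :=
  ∀ n m : ℕ, (f.coeff n).coeff m ≠ 0 → (m : ZMod 2) = α ∧ (n : ZMod 2) = β

theorem Par.zero {K : Type} [Field K] (α β : ZMod 2) : Par α β (0 : K[X][X]) := by
  intro n m h
  simp at h

theorem Par.add {K : Type} [Field K] {α β : ZMod 2} {f g : K[X][X]} (hf : Par α β f)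
    (hg : Par α β g) : Par α β (f + g) := by
  intro n m h
  rw [coeff_add, coeff_add] at h
  by_cases h1 : (f.coeff n).coeff m = 0
  · rw [h1, zero_add] at h
    exact hg n m h
  · exact hf n m h1

theorem Par.neg {K : Type} [Field K] {α β : ZMod 2} {f : K[X][X]} (hf : Par α β f) :
    Par α β (-f) := by
  intro n m h
  rw [coeff_neg, coeff_neg, neg_ne_zero] at h
  exact hf n m h

theorem Par.sub {K : Type} [Field K] {α β : ZMod 2} {f g : K[X][X]} (hf : Par α β f)
    (hg : Par α β g) : Par α β (f - g) := by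
  rw [sub_eq_add_neg]
  exact hf.add hg.neg

theorem Par.mul {K : Type} [Field K] {α β γ δ α' β' : ZMod 2} {f g : K[X][X]} (hf : Par α β f)
    (hg : Par γ δ g) (h1 : α + γ = α') (h2 : β + δ = β') : Par α' β' (f * g) := by
  intro n m h
  rw [coeff_mul, finsetSum_coeff] at h
  obtain ⟨⟨i, j⟩, hij, h⟩ := Finset.exists_ne_zero_of_sum_ne_zero h
  rw [coeff_mul] at h
  obtain ⟨⟨k, l⟩, hkl, h⟩ := Finset.exists_ne_zero_of_sum_ne_zero h
  rw [Finset.HasAntidiagonal.mem_antidiagonal] at hij hkl
  dsimp only at hij hkl h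
  obtain ⟨a1, a2⟩ := hf i k (left_ne_zero_of_mul h)
  obtain ⟨b1, b2⟩ := hg j l (right_ne_zero_of_mul h)
  constructor
  · rw [← hkl, Nat.cast_add, a1, b1, h1]
  · rw [← hij, Nat.cast_add, a2, b2, h2]

theorem Par.const {K : Type} [Field K] (c : K) : Par 0 0 (C (C c) : K[X][X]) := by
  intro n m h
  rw [coeff_C] at h
  split_ifs at h with hn
  · rw [coeff_C] at h
    split_ifs at h with hm
    · simp [hn, hm]
    · exact absurd rfl h
  · simp at h

theorem Par.varS {K : Type} [Field K] : Par 1 0 (C X : K[X][X]) := by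
  intro n m h
  rw [coeff_C] at h
  split_ifs at h with hn
  · rw [coeff_X] at h
    split_ifs at h with hm
    · simp [hn, ← hm]
    · exact absurd rfl h
  · simp at h

theorem Par.varT {K : Type} [Field K] : Par 0 1 (X : K[X][X]) := by
  intro n m h
  rw [coeff_X] at h
  split_ifs at h with hn
  · rw [coeff_one] at h
    split_ifs at h with hm
    · simp [hm, ← hn]
    · exact absurd rfl h
  · simp at h

/-- One variable. -/
theorem aniso1 {K : Type} [Field K] {a b : ZMod 2} (hab : a ≠ b) (f g : K[X])
    (hf : ∀ m, f.coeff m ≠ 0 → (m : ZMod 2) = a) (hg : ∀ m, g.coeff m ≠ 0 → (m : ZMod 2) = b)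
    (h : f * f + g * g = 0) : f = 0 ∧ g = 0 := by
  have key : ∀ N : ℕ, (∀ m, N ≤ m → f.coeff m = 0 ∧ g.coeff m = 0) → f = 0 ∧ g = 0 := by
    intro N
    induction N with
    | zero =>
      intro hN
      exact ⟨Polynomial.ext fun m => by rw [(hN m (Nat.zero_le m)).1, coeff_zero],
        Polynomial.ext fun m => by rw [(hN m (Nat.zero_le m)).2, coeff_zero]⟩
    | succ N ih =>
      intro hN
      apply ih
      have hf1 : f.natDegree ≤ N := natDegree_le_iff_coeff_eq_zero.2 fun m hm => (hN m hm).1
      have hg1 : g.natDegree ≤ N := natDegree_le_iff_coeff_eq_zero.2 fun m hm => (hN m hm).2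
      have h1 := congrArg (fun q : K[X] => q.coeff (N + N)) h
      simp only [coeff_add, coeff_zero] at h1
      rw [coeff_mul_add_eq_of_natDegree_le hf1 hf1, coeff_mul_add_eq_of_natDegree_le hg1 hg1] at h1
      have h2 : f.coeff N = 0 ∧ g.coeff N = 0 := by
        by_cases hx : f.coeff N = 0
        · rw [hx] at h1
          exact ⟨hx, mul_self_eq_zero.1 (by linear_combination h1)⟩
        · by_cases hy : g.coeff N = 0
          · rw [hy] at h1
            exact ⟨mul_self_eq_zero.1 (by linear_combination h1), hy⟩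
          · exact absurd ((hf N hx).symm.trans (hg N hy)) hab
      intro m hm
      rcases Nat.eq_or_lt_of_le hm with rfl | hm
      · exact h2
      · exact hN m hm
  apply key (max f.natDegree g.natDegree + 1)
  intro m hm
  exact ⟨coeff_eq_zero_of_natDegree_lt (by omega), coeff_eq_zero_of_natDegree_lt (by omega)⟩

/-- Two variables. -/
theorem aniso2 {K : Type} [Field K] (f g k : K[X][X]) (hf : Par 1 0 f) (hg : Par 0 1 g)
    (hk : Par 1 1 k) (h : f * f + g * g + k * k = 0) : f = 0 ∧ g = 0 ∧ k = 0 := by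
  have key : ∀ N : ℕ, (∀ m, N ≤ m → f.coeff m = 0 ∧ g.coeff m = 0 ∧ k.coeff m = 0) →
      f = 0 ∧ g = 0 ∧ k = 0 := by
    intro N
    induction N with
    | zero =>
      intro hN
      exact ⟨Polynomial.ext fun m => by rw [(hN m (Nat.zero_le m)).1, coeff_zero],
        Polynomial.ext fun m => by rw [(hN m (Nat.zero_le m)).2.1, coeff_zero],
        Polynomial.ext fun m => by rw [(hN m (Nat.zero_le m)).2.2, coeff_zero]⟩
    | succ N ih =>
      intro hN
      apply ih
      have hf1 : f.natDegree ≤ N := natDegree_le_iff_coeff_eq_zero.2 fun m hm => (hN m hm).1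
      have hg1 : g.natDegree ≤ N := natDegree_le_iff_coeff_eq_zero.2 fun m hm => (hN m hm).2.1
      have hk1 : k.natDegree ≤ N := natDegree_le_iff_coeff_eq_zero.2 fun m hm => (hN m hm).2.2
      have h1 := congrArg (fun q : K[X][X] => q.coeff (N + N)) h
      simp only [coeff_add, coeff_zero] at h1
      rw [coeff_mul_add_eq_of_natDegree_le hf1 hf1, coeff_mul_add_eq_of_natDegree_le hg1 hg1,
        coeff_mul_add_eq_of_natDegree_le hk1 hk1] at h1
      have h2 : f.coeff N = 0 ∧ g.coeff N = 0 ∧ k.coeff N = 0 := by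
        rcases (show (N : ZMod 2) = 0 ∨ (N : ZMod 2) = 1 by
          generalize (N : ZMod 2) = z; revert z; decide) with hz | hz
        · have hg0 : g.coeff N = 0 := by
            ext m
            by_contra hc
            rw [coeff_zero] at hc
            have := (hg N m hc).2
            rw [hz] at this
            exact absurd this (by decide)
          have hk0 : k.coeff N = 0 := by
            ext m
            by_contra hc
            rw [coeff_zero] at hc
            have := (hk N m hc).2
            rw [hz] at this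
            exact absurd this (by decide)
          rw [hg0, hk0] at h1
          exact ⟨mul_self_eq_zero.1 (by linear_combination h1), hg0, hk0⟩
        · have hf0 : f.coeff N = 0 := by
            ext m
            by_contra hc
            rw [coeff_zero] at hc
            have := (hf N m hc).2
            rw [hz] at this
            exact absurd this (by decide)
          rw [hf0] at h1
          have h3 := aniso1 (a := 0) (b := 1) (by decide) (g.coeff N) (k.coeff N)
            (fun m hm => (hg N m hm).1) (fun m hm => (hk N m hm).1)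
            (by linear_combination h1)
          exact ⟨hf0, h3.1, h3.2⟩
      intro m hm
      rcases Nat.eq_or_lt_of_le hm with rfl | hm
      · exact h2
      · exact hN m hm
  apply key (max f.natDegree (max g.natDegree k.natDegree) + 1)
  intro m hm
  exact ⟨coeff_eq_zero_of_natDegree_lt (by omega), coeff_eq_zero_of_natDegree_lt (by omega),
    coeff_eq_zero_of_natDegree_lt (by omega)⟩

/-- A polynomial in two variables which vanishes everywhere is zero. -/
theorem vanish {K : Type} [Field K] [Infinite K] (f : K[X][X])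
    (h : ∀ s t : K, (f.eval (C t)).eval s = 0) : f = 0 := by
  have h1 : ∀ t : K, f.eval (C t) = 0 := fun t => Polynomial.funext fun s => by
    rw [h s t, eval_zero]
  apply Polynomial.eq_zero_of_infinite_isRoot
  have h2 : Set.range (fun t : K => (C t : K[X])) ⊆ {x | f.IsRoot x} := by
    rintro _ ⟨t, rfl⟩
    exact h1 t
  exact (Set.infinite_range_of_injective (C_injective)).mono h2

/-- Evaluation at a point, as a Lie homomorphism. -/
noncomputable def evq (K : Type) [Field K] (t : K × K) : (K × K → ℍ[K]) →ₗ⁅K⁆ ℍ[K] where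
  toFun x := x t
  map_add' _ _ := rfl
  map_smul' _ _ := rfl
  map_lie' := rfl

theorem brk {K : Type} [Field K] (q r : ℍ[K]) :
    q * r - r * q = ⟨0, 2 * (q.imJ * r.imK - q.imK * r.imJ), 2 * (q.imK * r.imI - q.imI * r.imK),
      2 * (q.imI * r.imJ - q.imJ * r.imI)⟩ := by
  apply Quaternion.ext <;>
    simp only [Quaternion.re_sub, Quaternion.imI_sub, Quaternion.imJ_sub, Quaternion.imK_sub,
      Quaternion.re_mul, Quaternion.imI_mul, Quaternion.imJ_mul, Quaternion.imK_mul] <;> ring

/-- The coordinates are polynomial functions with the right parities. -/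
def Pol2 (K : Type) [Field K] (x : K × K → ℍ[K]) : Prop :=
  ∃ A B D : K[X][X], Par 1 0 A ∧ Par 0 1 B ∧ Par 1 1 D ∧
    ∀ s t : K, x (s, t) = ⟨0, (A.eval (C t)).eval s, (B.eval (C t)).eval s, (D.eval (C t)).eval s⟩

theorem ev_pol2 (K : Type) [Field K] (p : FreeLieAlgebra K ℕ) (a : ℕ → ℍ[K]) :
    Pol2 K (ev (L := K × K → ℍ[K]) (fun i z => ⟨0, (a i).imI * z.1, (a i).imJ * z.2,
      (a i).imK * (z.1 * z.2)⟩) p) := by
  refine ev_ind (Pol2 K) _ p ?_ ?_ ?_ ?_ ?_
  · refine ⟨0, 0, 0, Par.zero _ _, Par.zero _ _, Par.zero _ _, fun s t => ?_⟩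
    simp only [Polynomial.eval_zero]
    rfl
  · intro i
    refine ⟨C (C (a i).imI) * C X, C (C (a i).imJ) * X, C (C (a i).imK) * (C X * X),
      (Par.const _).mul Par.varS rfl rfl, (Par.const _).mul Par.varT rfl rfl,
      (Par.const _).mul (Par.varS.mul Par.varT rfl rfl) rfl rfl, fun s t => ?_⟩
    simp [mul_comm t s]
    all_goals rfl
  · rintro x y ⟨A, B, D, h1, h2, h3, h⟩ ⟨A', B', D', h1', h2', h3', h'⟩
    refine ⟨A + A', B + B', D + D', h1.add h1', h2.add h2', h3.add h3', fun s t => ?_⟩
    rw [Pi.add_apply, h, h']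
    simp only [Polynomial.eval_add]
    apply Quaternion.ext
    · exact (add_zero (0 : K))
    · rfl
    · rfl
    · rfl
  · rintro c x ⟨A, B, D, h1, h2, h3, h⟩
    refine ⟨C (C c) * A, C (C c) * B, C (C c) * D, (Par.const c).mul h1 (by simp) (by simp),
      (Par.const c).mul h2 (by simp) (by simp), (Par.const c).mul h3 (by simp) (by simp),
      fun s t => ?_⟩
    rw [Pi.smul_apply, h]
    simp only [Polynomial.eval_mul, Polynomial.eval_C]
    apply Quaternion.ext
    · exact mul_zero c
    · rfl
    · rfl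
    · rfl
  · rintro x y ⟨A, B, D, h1, h2, h3, h⟩ ⟨A', B', D', h1', h2', h3', h'⟩
    have hb : ∀ z : K × K, ⁅x, y⁆ z = x z * y z - y z * x z := fun z => rfl
    refine ⟨C (C 2) * (B * D' - D * B'), C (C 2) * (D * A' - A * D'), C (C 2) * (A * B' - B * A'),
      (Par.const _).mul ((h2.mul h3' rfl rfl).sub (h3.mul h2' rfl rfl)) (by decide) (by decide),
      (Par.const _).mul ((h3.mul h1' rfl rfl).sub (h1.mul h3' rfl rfl)) (by decide) (by decide),
      (Par.const _).mul ((h1.mul h2' rfl rfl).sub (h2.mul h1' rfl rfl)) (by decide) (by decide),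
      fun s t => ?_⟩
    rw [hb, brk, h, h']
    simp only [Polynomial.eval_mul, Polynomial.eval_sub, Polynomial.eval_C]
    all_goals rfl

theorem t_ANI : S_ANI := by
  intro K _ _ _ p hp a ha
  have hinf : Infinite K := IsAlgClosed.instInfinite
  obtain ⟨A, B, D, h1, h2, h3, h⟩ := ev_pol2 K p a
  have hev : ∀ s t : K, ev (fun i => (⟨0, (a i).imI * s, (a i).imJ * t, (a i).imK * (s * t)⟩ : ℍ[K])) p =
      (⟨0, (A.eval (C t)).eval s, (B.eval (C t)).eval s, (D.eval (C t)).eval s⟩ : ℍ[K]) := by
    intro s t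
    rw [← h s t]
    exact (ev_map (evq K (s, t)) (fun i z => (⟨0, (a i).imI * z.1, (a i).imJ * z.2,
      (a i).imK * (z.1 * z.2)⟩ : ℍ[K])) p).symm
  have hz : A * A + B * B + D * D = 0 := by
    apply vanish
    intro s t
    have h4 := hp (fun i => (⟨0, (a i).imI * s, (a i).imJ * t, (a i).imK * (s * t)⟩ : ℍ[K]))
      (fun i => rfl)
    have h4 := (congrArg (fun q : ℍ[K] => normSq q) (hev s t)).symm.trans h4
    have h5 := (normSq_def' (⟨0, (A.eval (C t)).eval s, (B.eval (C t)).eval s,
      (D.eval (C t)).eval s⟩ : ℍ[K])).symm.trans h4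
    simp only [Polynomial.eval_add, Polynomial.eval_mul]
    have h6 : (0 : K) ^ 2 + ((A.eval (C t)).eval s) ^ 2 + ((B.eval (C t)).eval s) ^ 2 +
      ((D.eval (C t)).eval s) ^ 2 = 0 := h5
    linear_combination h6
  obtain ⟨rfl, rfl, rfl⟩ := aniso2 A B D h1 h2 h3 hz
  have h7 := hev 1 1
  have h8 : (fun i => (⟨0, (a i).imI * 1, (a i).imJ * 1, (a i).imK * (1 * 1)⟩ : ℍ[K])) = a := by
    funext i
    apply Quaternion.ext
    · exact (ha i).symm
    · exact mul_one _
    · exact mul_one _
    · show (a i).imK * (1 * 1) = (a i).imK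
      ring
  rw [h8] at h7
  simp only [Polynomial.eval_zero] at h7
  exact h7

end Pool.Agent.H68.LP
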