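import Mathlib

set_option autoImplicit false

/-! Images of Lie polynomials: definitions. -/

namespace Pool.Agent.H68.LP

open Quaternion

/-- Lie words in the letters `0, 1, 2, ...` with their content (the multiset of the letters). -/
inductive IsWord (K : Type*) [Field K] : Multiset ℕ → FreeLieAlgebra K ℕ → Prop
  | letter (i : ℕ) : IsWord K {i} (FreeLieAlgebra.of K i)
  | bracket {s t : Multiset ℕ} {v w : FreeLieAlgebra K ℕ} :
      IsWord K s v → IsWord K t w → IsWord K (s + t) ⁅v, w⁆

/-- A Lie polynomial is homogeneous if it is a linear combination of words of the same degree. -/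
def IsHomog {K : Type*} [Field K] (p : FreeLieAlgebra K ℕ) : Prop :=
  ∃ d : ℕ, p ∈ Submodule.span K {w | ∃ s : Multiset ℕ, s.card = d ∧ IsWord K s w}

/-- A Lie polynomial is multilinear if it is a linear combination of words in which every letter of
a finite set occurs exactly once, and no other letter. -/
def IsMulti {K : Type*} [Field K] (p : FreeLieAlgebra K ℕ) : Prop :=
  ∃ V : Finset ℕ, p ∈ Submodule.span K {w | IsWord K V.val w}

/-- The value of the Lie polynomial `p` at the elements `a 0, a 1, ...` of a Lie algebra. -/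
noncomputable def ev {K L : Type*} [Field K] [LieRing L] [LieAlgebra K L] (a : ℕ → L)
    (p : FreeLieAlgebra K ℕ) : L := FreeLieAlgebra.lift K a p

/-- The image of the Lie polynomial `p` on the Lie algebra `L`. -/
def image {K : Type*} [Field K] (L : Type*) [LieRing L] [LieAlgebra K L]
    (p : FreeLieAlgebra K ℕ) : Set L := Set.range fun a : ℕ → L => ev a p

section
variable {K L M : Type*} [Field K] [LieRing L] [LieAlgebra K L] [LieRing M] [LieAlgebra K M]

@[simp] theorem ev_of (a : ℕ → L) (i : ℕ) : ev a (FreeLieAlgebra.of K i) = a i := by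
  simp [ev]

@[simp] theorem ev_add (a : ℕ → L) (p q : FreeLieAlgebra K ℕ) : ev a (p + q) = ev a p + ev a q := by
  simp [ev]

@[simp] theorem ev_smul (a : ℕ → L) (c : K) (p : FreeLieAlgebra K ℕ) :
    ev a (c • p) = c • ev a p := by
  simp [ev]

@[simp] theorem ev_zero (a : ℕ → L) : ev a (0 : FreeLieAlgebra K ℕ) = 0 := by
  simp [ev]

@[simp] theorem ev_lie (a : ℕ → L) (p q : FreeLieAlgebra K ℕ) : ev a ⁅p, q⁆ = ⁅ev a p, ev a q⁆ := by
  simp [ev]

/-- Naturality. -/
theorem ev_map (φ : L →ₗ⁅K⁆ M) (a : ℕ → L) (p : FreeLieAlgebra K ℕ) :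
    φ (ev a p) = ev (fun i => φ (a i)) p := by
  have : φ.comp (FreeLieAlgebra.lift K a) = FreeLieAlgebra.lift K (fun i => φ (a i)) := by
    apply FreeLieAlgebra.hom_ext
    intro i
    simp
  exact congrArg (fun f => f p) this

/-- Values lie in every Lie subalgebra which contains the arguments. -/
theorem ev_mem (H : LieSubalgebra K L) (a : ℕ → L) (ha : ∀ i, a i ∈ H) (p : FreeLieAlgebra K ℕ) :
    ev a p ∈ H := by
  have h := ev_map (H.incl) (fun i => (⟨a i, ha i⟩ : H)) p
  have h2 : (fun i => H.incl (⟨a i, ha i⟩ : H)) = a := by funext i; rfl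
  rw [h2] at h
  rw [← h]
  exact (ev (fun i => (⟨a i, ha i⟩ : H)) p).2

/-- Induction over the Lie polynomials for properties of the values. -/
theorem ev_ind (P : L → Prop) (a : ℕ → L) (p : FreeLieAlgebra K ℕ) (h0 : P 0) (ha : ∀ i, P (a i))
    (hadd : ∀ x y, P x → P y → P (x + y)) (hsmul : ∀ (c : K) x, P x → P (c • x))
    (hlie : ∀ x y, P x → P y → P ⁅x, y⁆) : P (ev a p) :=
  ev_mem ({ carrier := {x | P x}
            add_mem' := fun {x y} hx hy => hadd x y hx hy
            zero_mem' := h0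
            smul_mem' := fun c x hx => hsmul c x hx
            lie_mem' := fun {x y} hx hy => hlie x y hx hy } : LieSubalgebra K L) a ha p
end

/-- The Lie polynomial `[[[x, y], x], [[x, y], y]]`. -/
noncomputable def p0 (K : Type*) [Field K] : FreeLieAlgebra K ℕ :=
  ⁅⁅⁅FreeLieAlgebra.of K 0, FreeLieAlgebra.of K 1⁆, FreeLieAlgebra.of K 0⁆,
    ⁅⁅FreeLieAlgebra.of K 0, FreeLieAlgebra.of K 1⁆, FreeLieAlgebra.of K 1⁆⁆

/-- The first (self-dual) component of a skew-symmetric `4 × 4` matrix, as a pure quaternion. -/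
def sd {K : Type*} [Field K] (A : Matrix (Fin 4) (Fin 4) K) : ℍ[K] :=
  ⟨0, (A 1 0 + A 3 2) / 2, (A 2 0 + A 1 3) / 2, (A 3 0 + A 2 1) / 2⟩

/-- The second (anti-self-dual) component of a skew-symmetric `4 × 4` matrix. -/
def asd {K : Type*} [Field K] (A : Matrix (Fin 4) (Fin 4) K) : ℍ[K] :=
  ⟨0, (A 3 2 - A 1 0) / 2, (A 1 3 - A 2 0) / 2, (A 2 1 - A 3 0) / 2⟩

end Pool.Agent.H68.LP
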