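import Pool.Agent.H68.LP.Stm

set_option autoImplicit false

/-! Images of Lie polynomials on `so_4`: assembly. -/

namespace Pool.Agent.H68.LP

open Quaternion

attribute [local instance 100] LieRing.ofAssociativeRing

section
variable {K : Type} [Field K]

theorem ev_re (a : ℕ → ℍ[K]) (ha : ∀ i, (a i).re = 0) (p : FreeLieAlgebra K ℕ) :
    (ev a p).re = 0 := by
  apply ev_ind (fun x : ℍ[K] => x.re = 0) a p
  · simp
  · exact ha
  · intro x y hx hy; simp [hx, hy]
  · intro c x hx; simp [hx]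
  · intro x y hx hy
    rw [LieRing.of_associative_ring_bracket]
    simp only [re_sub, re_mul, hx, hy]
    ring

/-- The values at pure quaternions. -/
def vals (K : Type) [Field K] (p : FreeLieAlgebra K ℕ) : Set ℍ[K] :=
  {u | ∃ a : ℕ → ℍ[K], (∀ i, (a i).re = 0) ∧ ev a p = u}

theorem zero_mem_vals (p : FreeLieAlgebra K ℕ) : (0 : ℍ[K]) ∈ vals K p := by
  refine ⟨fun _ => 0, fun _ => rfl, ?_⟩
  apply ev_ind (fun x : ℍ[K] => x = 0) _ p rfl (fun _ => rfl)
  · intro x y hx hy; simp [hx, hy]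
  · intro c x hx; simp [hx]
  · intro x y hx hy; simp [hx]

theorem conj_mem [CharZero K] (hC : S_CON) (hO : S_ORB) {p : FreeLieAlgebra K ℕ} {u v : ℍ[K]}
    (hu : u ∈ vals K p) (hu0 : u ≠ 0) (hv : v.re = 0) (hv0 : v ≠ 0) (h : normSq u = normSq v) :
    v ∈ vals K p := by
  obtain ⟨a, ha, rfl⟩ := hu
  obtain ⟨g, hg, hg2⟩ := hO K (ev a p) v (ev_re a ha p) hv hu0 hv0 h
  exact hC K p g hg a ha v hg2

/-- The possible sets of values on the pure quaternions. -/
theorem trichotomy [IsAlgClosed K] [CharZero K] (hA : S_ANI) (hS : S_SUR) (hC : S_CON)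
    (hO : S_ORB) (p : FreeLieAlgebra K ℕ) :
    vals K p = {0} ∨ vals K p = {u | u.re = 0 ∧ (u = 0 ∨ normSq u ≠ 0)} ∨
      vals K p = {u | u.re = 0} := by
  by_cases h0 : ∀ a : ℕ → ℍ[K], (∀ i, (a i).re = 0) → ev a p = 0
  · left
    ext u
    simp only [Set.mem_singleton_iff]
    constructor
    · rintro ⟨a, ha, rfl⟩; exact h0 a ha
    · rintro rfl; exact zero_mem_vals p
  right
  obtain ⟨a, ha, hn⟩ : ∃ a : ℕ → ℍ[K], (∀ i, (a i).re = 0) ∧ normSq (ev a p) ≠ 0 := by
    by_contra hcon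
    push Not at hcon
    exact h0 (hA K p hcon)
  have hreg : ∀ u : ℍ[K], u.re = 0 → normSq u ≠ 0 → u ∈ vals K p := by
    intro u hu hun
    obtain ⟨b, hb, hbn⟩ := hS K p a ha hn (normSq u)
    refine conj_mem hC hO ⟨b, hb, rfl⟩ ?_ hu ?_ hbn
    · intro h; rw [h] at hbn; simp at hbn; exact hun hbn.symm
    · intro h; rw [h] at hun; simp at hun
  by_cases h1 : ∃ u ∈ vals K p, u ≠ 0 ∧ normSq u = 0
  · right
    obtain ⟨u, hu, hu0, hun⟩ := h1
    ext v
    simp only [Set.mem_ofPred_eq]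
    constructor
    · rintro ⟨b, hb, rfl⟩; exact ev_re b hb p
    · intro hv
      by_cases hv0 : v = 0
      · rw [hv0]; exact zero_mem_vals p
      by_cases hvn : normSq v = 0
      · exact conj_mem hC hO hu hu0 hv hv0 (by rw [hun, hvn])
      · exact hreg v hv hvn
  · left
    push Not at h1
    ext v
    simp only [Set.mem_ofPred_eq]
    constructor
    · intro hv
      refine ⟨?_, ?_⟩
      · obtain ⟨b, hb, rfl⟩ := hv; exact ev_re b hb p
      · by_cases hv0 : v = 0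
        · exact Or.inl hv0
        · exact Or.inr (h1 v hv hv0)
    · rintro ⟨hv, hv0 | hvn⟩
      · rw [hv0]; exact zero_mem_vals p
      · exact hreg v hv hvn

/-- The values of a multilinear Lie polynomial. -/
theorem multi [IsAlgClosed K] [CharZero K] (hA : S_ANI) (hS : S_SUR) (hC : S_CON)
    (hO : S_ORB) (hM : S_MUA) (hW : S_MUB) (p : FreeLieAlgebra K ℕ) (hp : IsMulti p) :
    vals K p = {0} ∨ vals K p = {u | u.re = 0} := by
  rcases trichotomy hA hS hC hO p with h | h | h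
  · exact Or.inl h
  · exfalso
    obtain ⟨V, hV⟩ := hp
    obtain ⟨ι, hι⟩ := IsAlgClosed.exists_pow_nat_eq (-1 : K) (n := 2) (by norm_num)
    have hι0 : ι ≠ 0 := by
      rintro rfl
      norm_num at hι
    let H : Submodule K ℍ[K] :=
      { carrier := {x | x.imJ = 0 ∧ x.imK = 0}
        add_mem' := by
          rintro x y ⟨h1, h2⟩ ⟨h3, h4⟩
          exact ⟨by rw [imJ_add, h1, h3, add_zero], by rw [imK_add, h2, h4, add_zero]⟩
        zero_mem' := ⟨rfl, rfl⟩
        smul_mem' := by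
          rintro e x ⟨h1, h2⟩
          exact ⟨by rw [imJ_smul, h1, smul_zero], by rw [imK_smul, h2, smul_zero]⟩ }
    have hall : ∀ a : ℕ → ℍ[K], (∀ i, (a i).re = 0) → ev a p ∈ H := by
      apply hM K V p hV {⟨0, ι, 0, 0⟩, ⟨0, 0, 1, ι⟩, ⟨0, 0, 1, -ι⟩} H
      · intro x hx
        obtain ⟨e1, he1⟩ : ∃ e : ℍ[K], e = ⟨0, ι, 0, 0⟩ := ⟨_, rfl⟩
        obtain ⟨e2, he2⟩ : ∃ e : ℍ[K], e = ⟨0, 0, 1, ι⟩ := ⟨_, rfl⟩
        obtain ⟨e3, he3⟩ : ∃ e : ℍ[K], e = ⟨0, 0, 1, -ι⟩ := ⟨_, rfl⟩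
        rw [← he1, ← he2, ← he3]
        have h1 : x = (x.imI / ι) • e1 +
            (x.imJ / 2 + x.imK / (2 * ι)) • e2 + (x.imJ / 2 - x.imK / (2 * ι)) • e3 := by
          have a1 : e1.re = 0 := by rw [he1]
          have a2 : e1.imI = ι := by rw [he1]
          have a3 : e1.imJ = 0 := by rw [he1]
          have a4 : e1.imK = 0 := by rw [he1]
          have b1 : e2.re = 0 := by rw [he2]
          have b2 : e2.imI = 0 := by rw [he2]
          have b3 : e2.imJ = 1 := by rw [he2]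
          have b4 : e2.imK = ι := by rw [he2]
          have c1 : e3.re = 0 := by rw [he3]
          have c2 : e3.imI = 0 := by rw [he3]
          have c3 : e3.imJ = 1 := by rw [he3]
          have c4 : e3.imK = -ι := by rw [he3]
          clear he1 he2 he3
          ext
          · simp only [re_add, re_smul, hx, a1, b1, c1, smul_eq_mul]; ring
          · simp only [imI_add, imI_smul, a2, b2, c2, smul_eq_mul]; field_simp; ring
          · simp only [imJ_add, imJ_smul, a3, b3, c3, smul_eq_mul]; ring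
          · simp only [imK_add, imK_smul, a4, b4, c4, smul_eq_mul]; field_simp; ring
        rw [h1]
        refine add_mem (add_mem ?_ ?_) ?_ <;>
          exact Submodule.smul_mem _ _ (Submodule.subset_span (by simp))
      · intro a ha
        have ha' : ∀ i, a i = ⟨0, ι, 0, 0⟩ ∨ a i = ⟨0, 0, 1, ι⟩ ∨ a i = ⟨0, 0, 1, -ι⟩ := by
          intro i
          rcases Set.mem_insert_iff.mp (ha i) with h | h
          · exact Or.inl h
          rcases Set.mem_insert_iff.mp h with h | h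
          · exact Or.inr (Or.inl h)
          · exact Or.inr (Or.inr (Set.mem_singleton_iff.mp h))
        rcases hW K V p hV ι hι a ha' with ⟨c, h1⟩ | ⟨h1, h2⟩
        · rw [h1]; exact ⟨rfl, rfl⟩
        · exfalso
          have h3 : ev a p ∈ vals K p := by
            refine ⟨a, fun i => ?_, rfl⟩
            rcases ha' i with h | h | h <;> rw [h]
          rw [h] at h3
          rcases h3.2 with h4 | h4
          · exact h1 h4
          · exact h4 h2
    have h5 : (⟨0, 0, 1, 0⟩ : ℍ[K]) ∈ vals K p := by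
      rw [h]
      have h6 : normSq (⟨0, 0, 1, 0⟩ : ℍ[K]) = 1 :=
        (normSq_def' _).trans (show (0 : K) ^ 2 + 0 ^ 2 + 1 ^ 2 + 0 ^ 2 = 1 by ring)
      exact ⟨rfl, Or.inr (by rw [h6]; exact one_ne_zero)⟩
    obtain ⟨b, hb, hb2⟩ := h5
    have hc := hall b hb
    rw [hb2] at hc
    exact one_ne_zero hc.1
  · exact Or.inr h

/-- The image on `so_4` in terms of the values on the pure quaternions. -/
theorem image_so4 [CharZero K] (h4 : S_SO4) (p : FreeLieAlgebra K ℕ) :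
    image (LieAlgebra.Orthogonal.so (Fin 4) K) p =
      {A | sd A.1 ∈ vals K p ∧ asd A.1 ∈ vals K p} := by
  obtain ⟨h1, h2, h3⟩ := h4 K
  ext A
  simp only [Set.mem_ofPred_eq]
  constructor
  · rintro ⟨a, rfl⟩
    refine ⟨⟨fun i => sd (a i).1, fun i => rfl, ?_⟩, ⟨fun i => asd (a i).1, fun i => rfl, ?_⟩⟩
    · exact ((h1 a p).1).symm
    · exact ((h1 a p).2).symm
  · rintro ⟨⟨b, hb, hb2⟩, ⟨c, hc, hc2⟩⟩
    choose a ha1 ha2 using fun i => h2 (b i) (c i) (hb i) (hc i)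
    refine ⟨a, ?_⟩
    apply h3
    · have := (h1 a p).1
      simp only [ha1] at this
      rw [← hb2, ← this]
    · have := (h1 a p).2
      simp only [ha2] at this
      rw [← hc2, ← this]
end

/-- The matrices in `so_4` none of whose two components is a nonzero nilpotent. -/
def middle (K : Type) [Field K] : Set (LieAlgebra.Orthogonal.so (Fin 4) K) :=
  {A | (sd A.1 = 0 ∨ normSq (sd A.1) ≠ 0) ∧ (asd A.1 = 0 ∨ normSq (asd A.1) ≠ 0)}

section
variable {K : Type} [Field K] [CharZero K]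

theorem im_zero (h4 : S_SO4) {p : FreeLieAlgebra K ℕ} (h : vals K p = {0}) :
    image (LieAlgebra.Orthogonal.so (Fin 4) K) p = {0} := by
  rw [image_so4 h4, h]
  ext A
  simp only [Set.mem_singleton_iff, Set.mem_ofPred_eq]
  constructor
  · rintro ⟨h1, h2⟩
    apply (h4 K).2.2
    · rw [h1]; ext <;> simp [sd]
    · rw [h2]; ext <;> simp [asd]
  · rintro rfl
    constructor <;> ext <;> simp [sd, asd]

theorem im_mid (h4 : S_SO4) {p : FreeLieAlgebra K ℕ}
    (h : vals K p = {u | u.re = 0 ∧ (u = 0 ∨ normSq u ≠ 0)}) :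
    image (LieAlgebra.Orthogonal.so (Fin 4) K) p = middle K := by
  rw [image_so4 h4, h]
  ext A
  simp only [Set.mem_ofPred_eq, middle]
  constructor
  · rintro ⟨⟨_, h1⟩, ⟨_, h2⟩⟩; exact ⟨h1, h2⟩
  · rintro ⟨h1, h2⟩; exact ⟨⟨rfl, h1⟩, ⟨rfl, h2⟩⟩

theorem im_all (h4 : S_SO4) {p : FreeLieAlgebra K ℕ} (h : vals K p = {u | u.re = 0}) :
    image (LieAlgebra.Orthogonal.so (Fin 4) K) p = Set.univ := by
  rw [image_so4 h4, h]
  ext A
  simp only [Set.mem_ofPred_eq, Set.mem_univ, iff_true]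
  exact ⟨rfl, rfl⟩
end

theorem distinct (h4 : S_SO4) (K : Type) [Field K] [IsAlgClosed K] [CharZero K] :
    middle K ≠ {0} ∧ middle K ≠ Set.univ ∧
      (Set.univ : Set (LieAlgebra.Orthogonal.so (Fin 4) K)) ≠ {0} := by
  have hz1 : sd (0 : LieAlgebra.Orthogonal.so (Fin 4) K).1 = 0 := by ext <;> simp [sd]
  obtain ⟨A, hA1, hA2⟩ := (h4 K).2.1 ⟨0, 1, 0, 0⟩ 0 rfl rfl
  have hA0 : A ≠ 0 := by
    rintro rfl
    rw [hz1] at hA1
    have := congrArg (fun q : ℍ[K] => q.imI) hA1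
    exact zero_ne_one this
  obtain ⟨ι, hι⟩ := IsAlgClosed.exists_pow_nat_eq (-1 : K) (n := 2) (by norm_num)
  obtain ⟨B, hB1, hB2⟩ := (h4 K).2.1 ⟨0, 0, 1, ι⟩ 0 rfl rfl
  have hAm : A ∈ middle K := by
    refine ⟨Or.inr ?_, Or.inl hA2⟩
    rw [hA1]
    have h6 : normSq (⟨0, 1, 0, 0⟩ : ℍ[K]) = 1 :=
      (normSq_def' _).trans (show (0 : K) ^ 2 + 1 ^ 2 + 0 ^ 2 + 0 ^ 2 = 1 by ring)
    rw [h6]
    exact one_ne_zero
  have hBm : B ∉ middle K := by
    rintro ⟨h | h, _⟩
    · rw [hB1] at h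
      have := congrArg (fun q : ℍ[K] => q.imJ) h
      exact one_ne_zero this
    · apply h
      rw [hB1]
      exact (normSq_def' _).trans (show (0 : K) ^ 2 + 0 ^ 2 + 1 ^ 2 + ι ^ 2 = 0 by rw [hι]; ring)
  refine ⟨fun h => ?_, fun h => ?_, fun h => ?_⟩
  · rw [h] at hAm
    exact hA0 hAm
  · rw [h] at hBm
    exact hBm trivial
  · have : A ∈ (Set.univ : Set (LieAlgebra.Orthogonal.so (Fin 4) K)) := trivial
    rw [h] at this
    exact hA0 this

theorem assembled (hA : S_ANI) (hS : S_SUR) (hC : S_CON) (hO : S_ORB) (hM : S_MUA) (hW : S_MUB)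
    (h4 : S_SO4) (hE : S_EXA) (K : Type) [Field K] [IsAlgClosed K] [CharZero K] :
    (∀ p : FreeLieAlgebra K ℕ, image (LieAlgebra.Orthogonal.so (Fin 4) K) p = {0} ∨
      image (LieAlgebra.Orthogonal.so (Fin 4) K) p = middle K ∨
      image (LieAlgebra.Orthogonal.so (Fin 4) K) p = Set.univ) ∧
    (∃ p : FreeLieAlgebra K ℕ, IsHomog p ∧
      image (LieAlgebra.Orthogonal.so (Fin 4) K) p = {0}) ∧
    (∃ p : FreeLieAlgebra K ℕ, IsHomog p ∧
      image (LieAlgebra.Orthogonal.so (Fin 4) K) p = middle K) ∧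
    (∃ p : FreeLieAlgebra K ℕ, IsHomog p ∧
      image (LieAlgebra.Orthogonal.so (Fin 4) K) p = Set.univ) ∧
    (∀ p : FreeLieAlgebra K ℕ, IsMulti p →
      image (LieAlgebra.Orthogonal.so (Fin 4) K) p = {0} ∨
      image (LieAlgebra.Orthogonal.so (Fin 4) K) p = Set.univ) ∧
    (∃ p : FreeLieAlgebra K ℕ, IsMulti p ∧
      image (LieAlgebra.Orthogonal.so (Fin 4) K) p = {0}) ∧
    (∃ p : FreeLieAlgebra K ℕ, IsMulti p ∧
      image (LieAlgebra.Orthogonal.so (Fin 4) K) p = Set.univ) ∧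
    (middle K ≠ {0} ∧ middle K ≠ Set.univ ∧
      (Set.univ : Set (LieAlgebra.Orthogonal.so (Fin 4) K)) ≠ {0}) := by
  obtain ⟨e1, ⟨a, ha, e2⟩, e3, e4, e5, e6, e7⟩ := hE K
  have hz : vals K (0 : FreeLieAlgebra K ℕ) = {0} := by
    ext u
    simp only [Set.mem_singleton_iff]
    constructor
    · rintro ⟨a, ha, rfl⟩; simp
    · rintro rfl; exact zero_mem_vals _
  have hx : vals K (FreeLieAlgebra.of K 0) = {u | u.re = 0} := by
    ext u
    simp only [Set.mem_ofPred_eq]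
    constructor
    · rintro ⟨a, ha, rfl⟩; simpa using ha 0
    · intro hu; exact ⟨fun _ => u, fun _ => hu, by simp⟩
  have hm : vals K (p0 K) = {u | u.re = 0 ∧ (u = 0 ∨ normSq u ≠ 0)} := by
    rcases trichotomy hA hS hC hO (p0 K) with h | h | h
    · exfalso
      have : ev a (p0 K) ∈ vals K (p0 K) := ⟨a, ha, rfl⟩
      rw [h, Set.mem_singleton_iff] at this
      rw [this] at e2
      simp at e2
    · exact h
    · exfalso
      obtain ⟨ι, hι⟩ := IsAlgClosed.exists_pow_nat_eq (-1 : K) (n := 2) (by norm_num)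
      have h1 : (⟨0, 0, 1, ι⟩ : ℍ[K]) ∈ vals K (p0 K) := by rw [h]; rfl
      obtain ⟨b, hb, hb2⟩ := h1
      have h2 : normSq (ev b (p0 K)) = 0 := by
        rw [hb2]
        exact (normSq_def' _).trans (show (0 : K) ^ 2 + 0 ^ 2 + 1 ^ 2 + ι ^ 2 = 0 by rw [hι]; ring)
      have h3 := e3 b hb h2
      rw [hb2] at h3
      have := congrArg (fun q : ℍ[K] => q.imJ) h3
      simp at this
  refine ⟨fun p => ?_, ⟨0, e6, im_zero h4 hz⟩, ⟨p0 K, e1, im_mid h4 hm⟩, ⟨_, e4, im_all h4 hx⟩,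
    fun p hp => ?_, ⟨0, e7, im_zero h4 hz⟩, ⟨_, e5, im_all h4 hx⟩, distinct h4 K⟩
  · rcases trichotomy hA hS hC hO p with h | h | h
    · exact Or.inl (im_zero h4 h)
    · exact Or.inr (Or.inl (im_mid h4 h))
    · exact Or.inr (Or.inr (im_all h4 h))
  · rcases multi hA hS hC hO hM hW p hp with h | h
    · exact Or.inl (im_zero h4 h)
    · exact Or.inr (im_all h4 h)

end Pool.Agent.H68.LP
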