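import Pool.Agent.H68.LP.Defs

set_option autoImplicit false

/-! Images of Lie polynomials on `so_4`: the statements of the parts. Everything is for pure
quaternions (`re = 0`) over an algebraically closed field `K` of characteristic zero; `[u, v] = u * v - v * u`
(`Ring.lie_def` / `LieRing.of_associative_ring_bracket`), so in coordinates `[u, v] = 2 u × v`, and
`Quaternion.normSq u = u_1^2 + u_2^2 + u_3^2`. Useful tools in Defs: `ev_map` (naturality), `ev_ind`
(induction for properties of values), simp lemmas `ev_of`, `ev_add`, `ev_smul`, `ev_lie`. -/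

namespace Pool.Agent.H68.LP

open Quaternion

attribute [local instance 100] LieRing.ofAssociativeRing

/-- ANI (about 100 lines). If all values are null vectors then all values are zero. Proof. Let
`R = K[s][t] = Polynomial (Polynomial K)`. For a tuple `a` of pure quaternions over `K` evaluate `p` at
`x_j = (a_j)_1 s i + (a_j)_2 t j + (a_j)_3 s t k ∈ ℍ[R]` (a Lie algebra over `K`). By `ev_ind` the value `X`
has `re = 0` and is of the form `(A s, B t, C s t)` with `A, B, C` in the subring of the polynomials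
which are even in `s` and even in `t` (for example: `A = A'.comp-like` polynomials in `s^2, t^2`, or
use: the first coordinate is a combination of monomials `s^(odd) t^(even)`, second `s^(even) t^(odd)`, third
`s^(odd) t^(odd)`), because `[u, v] = 2 u × v`. For all `s, t ∈ K` the specialisation `ℍ[R] → ℍ[K]` is a Lie
homomorphism, so `normSq X` vanishes at all points of `K^2`, and `K` is infinite, so `X_1^2 + X_2^2 + X_3^2 = 0`
in `R`. Compare the degrees in `t`: `deg X_1^2 = 0 mod 4`, and `X_2^2 + X_3^2` (both odd in `t`) has degree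
`2 mod 4`, as the leading coefficient `b^2 + c^2` (`b` even in `s`, `c` odd in `s`) is not zero for the same reason
(degrees in `s`: `0` and `2 mod 4`). So `X = 0`, and `s = t = 1` gives `ev a p = 0`. -/
def S_ANI : Prop := ∀ (K : Type) [Field K] [IsAlgClosed K] [CharZero K] (p : FreeLieAlgebra K ℕ),
  (∀ a : ℕ → ℍ[K], (∀ i, (a i).re = 0) → normSq (ev a p) = 0) →
    ∀ a : ℕ → ℍ[K], (∀ i, (a i).re = 0) → ev a p = 0

/-- SUR (about 40 lines). If one value has nonzero norm, all nonzero norms occur. Proof. Evaluate `p` at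
`T a_j ∈ ℍ[K[T]]` (`Polynomial K`); `f = normSq` of the value is a polynomial with `f(1) = normSq (ev a p) ≠ 0`
and `f(0) = normSq (ev 0 p) = 0` (`ev 0 p = 0` by `ev_ind`), by the Lie homomorphisms `ℍ[K[T]] → ℍ[K]` induced
by the evaluations. So `f - c` is not constant and has a root `t`; take `b_i = t a_i`. -/
def S_SUR : Prop := ∀ (K : Type) [Field K] [IsAlgClosed K] [CharZero K] (p : FreeLieAlgebra K ℕ)
  (a : ℕ → ℍ[K]), (∀ i, (a i).re = 0) → normSq (ev a p) ≠ 0 → ∀ c : K,
    ∃ b : ℕ → ℍ[K], (∀ i, (b i).re = 0) ∧ normSq (ev b p) = c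

/-- ORB (about 40 lines). Nonzero pure quaternions of the same norm are conjugate. Proof. For every `w`
the quaternion `g = v w + w u` satisfies `v g = g u`, since `u^2 = v^2 = - normSq u`. If `normSq g = 0` for all `w`, then
`w = 1, i, j, k` and `w = 1 + i, 1 + j, 1 + k` give, with `N = normSq u`, equations of the kind
`v_1 u_1 = v_2 u_2 = v_3 u_3`..., `v × u = 0` (work them out in coordinates: the quadratic form
`normSq (v w + w u) = 2 N normSq w + 2 <v w, w u>` vanishes identically, so all its coefficients vanish), and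
then `u = 0`. -/
def S_ORB : Prop := ∀ (K : Type) [Field K] [CharZero K] (u v : ℍ[K]), u.re = 0 → v.re = 0 →
  u ≠ 0 → v ≠ 0 → normSq u = normSq v → ∃ g : ℍ[K], normSq g ≠ 0 ∧ v * g = g * u

/-- CON (about 30 lines). The values are closed under conjugation: `x ↦ (normSq g)⁻¹ • (g * x * star g)` is
an algebra homomorphism of `ℍ[K]` preserving pure quaternions. Use `ev_map` with it as a Lie
homomorphism. -/
def S_CON : Prop := ∀ (K : Type) [Field K] [CharZero K] (p : FreeLieAlgebra K ℕ) (g : ℍ[K]),
  normSq g ≠ 0 → ∀ a : ℕ → ℍ[K], (∀ i, (a i).re = 0) → ∀ v : ℍ[K], v * g = g * ev a p →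
    ∃ b : ℕ → ℍ[K], (∀ i, (b i).re = 0) ∧ ev b p = v

/-- MUA (about 60 lines). Multilinearity: if `p` is a linear combination of words with content `V` and
`H` is a subspace such that all values of `p` at pure quaternions from the set `{e, f, h}` (spanning the
pure quaternions) lie in `H`, then all values at pure quaternions lie in `H`. Proof. For `v ∈ V` the
map `y ↦ ev (Function.update a v y) p` is linear and for `v ∉ V` it is constant (first for words, by
induction on `IsWord`, with the statement: if `v ∉ s` constant, if `s.count v = 1` linear). Then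
induction over the finite set of letters which are arbitrary. -/
def S_MUA : Prop := ∀ (K : Type) [Field K] [IsAlgClosed K] [CharZero K] (V : Finset ℕ)
  (p : FreeLieAlgebra K ℕ), p ∈ Submodule.span K {w | IsWord K V.val w} →
  ∀ (E : Set ℍ[K]) (H : Submodule K ℍ[K]), (∀ x : ℍ[K], x.re = 0 → x ∈ Submodule.span K E) →
    (∀ a : ℕ → ℍ[K], (∀ i, a i ∈ E) → ev a p ∈ H) →
      ∀ a : ℕ → ℍ[K], (∀ i, (a i).re = 0) → ev a p ∈ H

/-- MUB (about 60 lines). Weights: let `ι ∈ K` with `ι^2 = -1`, `h = ι i`, `e = j + ι k`, `f = j - ι k` (pure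
quaternions; `[h, e] = 2 e` or `-2 e`, `[h, f] = ∓ 2 f`, check the sign). If `p` is multilinear and `a` is a tuple
from `{e, f, h}`, then `ev a p` is an eigenvector of `ad h` (for words: `[h, w(a)] = (sum of the weights) w(a)`, by
induction on `IsWord`, the weight depends only on the content), so it is a multiple of `e`, of `f` or
of `h`: so either it is in `K h`, or it is a null vector. -/
def S_MUB : Prop := ∀ (K : Type) [Field K] [IsAlgClosed K] [CharZero K] (V : Finset ℕ)
  (p : FreeLieAlgebra K ℕ), p ∈ Submodule.span K {w | IsWord K V.val w} → ∀ ι : K, ι ^ 2 = -1 →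
    ∀ a : ℕ → ℍ[K], (∀ i, a i = ⟨0, ι, 0, 0⟩ ∨ a i = ⟨0, 0, 1, ι⟩ ∨ a i = ⟨0, 0, 1, -ι⟩) →
      (∃ c : K, ev a p = ⟨0, c, 0, 0⟩) ∨ (ev a p ≠ 0 ∧ normSq (ev a p) = 0)

/-- SO4 (about 60 lines). `sd` and `asd` are Lie homomorphisms on the skew-symmetric matrices, hence
commute with `ev` (`ev_map`; `LieAlgebra.Orthogonal.so (Fin 4) K`, its elements satisfy `Aᵀ = -A`,
`LieAlgebra.Orthogonal.mem_so`), and a pair of pure quaternions comes from a unique matrix. With
`q = sd A`, `r = asd A`: `A` is the matrix of `x ↦ q x - x r` in the basis `1, i, j, k`. -/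
def S_SO4 : Prop := ∀ (K : Type) [Field K] [CharZero K],
  (∀ (a : ℕ → LieAlgebra.Orthogonal.so (Fin 4) K) (p : FreeLieAlgebra K ℕ),
    sd (ev a p : LieAlgebra.Orthogonal.so (Fin 4) K).1 = ev (fun i => sd (a i).1) p ∧
    asd (ev a p : LieAlgebra.Orthogonal.so (Fin 4) K).1 = ev (fun i => asd (a i).1) p) ∧
  (∀ q r : ℍ[K], q.re = 0 → r.re = 0 →
    ∃ A : LieAlgebra.Orthogonal.so (Fin 4) K, sd A.1 = q ∧ asd A.1 = r) ∧
  (∀ A B : LieAlgebra.Orthogonal.so (Fin 4) K, sd A.1 = sd B.1 → asd A.1 = asd B.1 → A = B)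

/-- EXA (about 40 lines). The polynomial `p0 = [[[x, y], x], [[x, y], y]]`: with `c = [x, y]` the value is
`4 (c · c) c` up to the constant, `normSq = const (c · c)^3`. So a null value is zero, and it is homogeneous of
degree 6 (`IsHomog`), and the norm is not zero for `x = i, y = j`. Also the letter `x` is multilinear and
homogeneous, and zero is multilinear and homogeneous. -/
def S_EXA : Prop := ∀ (K : Type) [Field K] [CharZero K],
  IsHomog (p0 K) ∧
  (∃ a : ℕ → ℍ[K], (∀ i, (a i).re = 0) ∧ normSq (ev a (p0 K)) ≠ 0) ∧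
  (∀ a : ℕ → ℍ[K], (∀ i, (a i).re = 0) → normSq (ev a (p0 K)) = 0 → ev a (p0 K) = 0) ∧
  IsHomog (FreeLieAlgebra.of K 0) ∧ IsMulti (FreeLieAlgebra.of K 0) ∧
  IsHomog (0 : FreeLieAlgebra K ℕ) ∧ IsMulti (0 : FreeLieAlgebra K ℕ)

end Pool.Agent.H68.LP
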